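import Mathlib

namespace Pool.Agent.Results.MP_bcad5b_nt.ExpSqrt

open Finset

def ell (f : ℕ →₀ ℕ) : ℕ := f.sum fun p k => p ^ k

theorem ell_sup (f g : ℕ →₀ ℕ) : ell (f ⊔ g) ≤ ell f + ell g := by
  have K : ∀ (h : ℕ →₀ ℕ) (T : Finset ℕ), h.support ⊆ T →
      ell h = ∑ p ∈ T, if h p = 0 then 0 else p ^ h p := by
    intro h T hT
    rw [← sum_subset hT (fun x _ hx => by simp [Finsupp.notMem_support_iff.1 hx])]
    exact sum_congr rfl fun x hx => by rw [if_neg (Finsupp.mem_support_iff.1 hx)]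
  rw [K (f ⊔ g) (f.support ∪ g.support) (by rw [Finsupp.support_sup]), K f _ subset_union_left,
    K g _ subset_union_right, ← sum_add_distrib]
  refine sum_le_sum fun p _ => ?_
  rw [Finsupp.sup_apply]
  rcases le_total (f p) (g p) with h | h
  · rw [sup_eq_right.2 h]; omega
  · rw [sup_eq_left.2 h]; omega

theorem sum_prod (s : Finset ℕ) (f : ℕ → ℕ) (h : ∀ x ∈ s, 2 ≤ f x) :
    ∑ x ∈ s, f x ≤ ∏ x ∈ s, f x ∧ (s = ∅ ∨ 2 ≤ ∏ x ∈ s, f x) := by
  induction s using Finset.induction with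
  | empty => simp
  | insert a s ha ih =>
    obtain ⟨h1, h2⟩ := ih fun x hx => h x (mem_insert_of_mem hx)
    have := h a (mem_insert_self _ _)
    rw [sum_insert ha, prod_insert ha]
    rcases h2 with rfl | h2
    · simpa using this
    · exact ⟨(Nat.add_le_add_left h1 _).trans (Nat.add_le_mul this h2), Or.inr (by nlinarith)⟩

theorem ell_le (a : ℕ) (ha : a ≠ 0) : ell a.factorization ≤ a := by
  conv_rhs => rw [← Nat.prod_factorization_pow_eq_self ha]
  refine (sum_prod a.factorization.support (fun p => p ^ a.factorization p) fun p hp => ?_).1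
  have h1 := (Nat.prime_of_mem_primeFactors hp).two_le
  exact h1.trans (Nat.le_self_pow (Finsupp.mem_support_iff.1 hp) p)

theorem ell_lcm (s : Multiset ℕ) (h : ∀ x ∈ s, x ≠ 0) :
    s.lcm ≠ 0 ∧ ell s.lcm.factorization ≤ s.sum := by
  induction s using Multiset.induction with
  | empty => simp [ell]
  | cons a s ih =>
    obtain ⟨h1, h2⟩ := ih fun x hx => h x (Multiset.mem_cons_of_mem hx)
    have ha := h a (Multiset.mem_cons_self _ _)
    rw [Multiset.lcm_cons, Multiset.sum_cons, lcm_eq_nat_lcm, Nat.factorization_lcm ha h1]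
    exact ⟨Nat.lcm_ne_zero ha h1, (ell_sup _ _).trans (Nat.add_le_add (ell_le a ha) h2)⟩

def cnt (A : ℕ) : List ℕ → ℕ → ℕ
  | [], _ => 1
  | p :: L, n => cnt A L n +
      ∑ a ∈ range A, if p ^ (a + 1) ≤ n then cnt A L (n - p ^ (a + 1)) else 0

theorem card_le (A : ℕ) : ∀ (L : List ℕ) (n : ℕ) (S : Finset (ℕ →₀ ℕ)), (∀ p ∈ L, 2 ≤ p) →
    n < 2 ^ (A + 1) → (∀ f ∈ S, (∀ p ∈ f.support, p ∈ L) ∧ ell f ≤ n) → #S ≤ cnt A L n := by
  intro L
  induction L with
  | nil =>
    intro n S _ _ h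
    exact card_le_one.2 fun f hf g hg => by
      have a : f = 0 := by
        ext p; by_contra c; simpa using (h f hf).1 p (Finsupp.mem_support_iff.2 c)
      have b : g = 0 := by
        ext p; by_contra c; simpa using (h g hg).1 p (Finsupp.mem_support_iff.2 c)
      rw [a, b]
  | cons p L ih =>
    intro n S h2 hn h
    have p2 := h2 p (by simp)
    have E : ∀ f : ℕ →₀ ℕ, f p ≠ 0 → p ^ f p + ell (f.erase p) = ell f := fun f hf =>
      Finsupp.add_sum_erase f p (fun p k => p ^ k) (Finsupp.mem_support_iff.2 hf)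
    have F : ∀ a m, m ≤ n → (∀ f ∈ S, f p = a → ell (f.erase p) ≤ m) →
        #{f ∈ S | f p = a} ≤ cnt A L m := by
      intro a m hm hf
      rw [← card_image_of_injOn (f := fun f => f.erase p)]
      · refine ih m _ (fun q hq => h2 q (by simp [hq])) (by omega) fun g hg => ?_
        obtain ⟨f, hf', rfl⟩ := mem_image.1 hg
        rw [mem_filter] at hf'
        refine ⟨fun q hq => ?_, hf f hf'.1 hf'.2⟩
        rw [Finsupp.support_erase, mem_erase] at hq
        simpa [hq.1] using (h f hf'.1).1 q hq.2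
      · intro f hf g hg e
        ext q
        by_cases c : q = p
        · rw [c, (mem_filter.1 hf).2, (mem_filter.1 hg).2]
        · simpa [Finsupp.erase_ne c] using DFunLike.congr_fun e q
    rw [card_eq_sum_card_fiberwise (f := fun f => f p) (t := range (A + 1)), sum_range_succ', cnt,
      add_comm]
    · refine Nat.add_le_add (F 0 n le_rfl fun f hf e => ?_) (sum_le_sum fun a _ => ?_)
      · rw [Finsupp.erase_of_notMem_support (Finsupp.notMem_support_iff.2 e)]; exact (h f hf).2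
      · split_ifs with c
        · refine F _ _ (by omega) fun f hf e => ?_
          have := E f (by omega)
          have := (h f hf).2
          rw [e] at *; omega
        · rw [Nat.le_zero, card_eq_zero, filter_eq_empty_iff]
          intro f hf e
          have := E f (by omega)
          have := (h f hf).2
          rw [e] at *; omega
    · intro f hf
      rw [coe_range, Set.mem_Iio]
      by_contra c
      simp only at c
      have a := E f (by omega)
      have := (h f hf).2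
      have : 2 ^ (A + 1) ≤ p ^ f p :=
        (Nat.pow_le_pow_right (by norm_num) (by omega)).trans (Nat.pow_le_pow_left p2 _)
      omega

theorem one_add (s : Finset ℕ) (u : ℕ → ℝ) (h : ∀ x, 0 ≤ u x) :
    1 + ∑ x ∈ s, u x ≤ ∏ x ∈ s, (1 + u x) := by
  induction s using Finset.induction with
  | empty => simp
  | insert a s ha ih =>
    rw [sum_insert ha, prod_insert ha]
    have := h a
    have := sum_nonneg fun x (_ : x ∈ s) => h x
    nlinarith

theorem rank1 (A N : ℕ) (z : ℝ) (h0 : 0 < z) (h1 : z ≤ 1) : ∀ (L : List ℕ) (n : ℕ), n ≤ N →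
    (cnt A L n : ℝ) * z ^ n ≤
      (L.map fun p => ∏ a ∈ range A with p ^ (a + 1) ≤ N, (1 + z ^ p ^ (a + 1))).prod := by
  intro L
  induction L with
  | nil => intro n _; simpa [cnt] using pow_le_one₀ h0.le h1
  | cons p L ih =>
    intro n hn
    rw [List.map_cons, List.prod_cons, cnt]
    set P := (L.map fun p => ∏ a ∈ range A with p ^ (a + 1) ≤ N, (1 + z ^ p ^ (a + 1))).prod
    have P0 : 0 ≤ P := le_trans (by positivity) (ih 0 (by omega))
    refine le_trans ?_ (mul_le_mul_of_nonneg_right (one_add _ _ fun a => by positivity) P0)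
    push_cast
    rw [add_mul, add_mul, one_mul, sum_mul, sum_filter, sum_mul]
    refine add_le_add (ih n hn) (sum_le_sum fun a _ => ?_)
    split_ifs with c d d
    · have := ih (n - p ^ (a + 1)) (by omega)
      have e : z ^ n = z ^ p ^ (a + 1) * z ^ (n - p ^ (a + 1)) := by
        rw [← pow_add]; congr 1; omega
      rw [e, mul_left_comm]
      gcongr
    · omega
    · rw [zero_mul]; positivity
    · simp

def PP (q : ℕ) : Prop := ∃ p a, p.Prime ∧ q = p ^ (a + 1)

theorem rank (A N : ℕ) (z : ℝ) (h0 : 0 < z) (h1 : z ≤ 1) (L : List ℕ) (hL : L.Nodup)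
    (hp : ∀ p ∈ L, p.Prime) (n : ℕ) (hn : n ≤ N) (Q : Finset ℕ) (hQ : ∀ q ≤ N, PP q → q ∈ Q) :
    (cnt A L n : ℝ) * z ^ n ≤ ∏ q ∈ Q, (1 + z ^ q) := by
  refine (rank1 A N z h0 h1 L n hn).trans ?_
  rw [← List.prod_toFinset _ hL, prod_sigma', ← prod_image (s := L.toFinset.sigma
    fun p => {a ∈ range A | p ^ (a + 1) ≤ N}) (g := fun x => x.1 ^ (x.2 + 1))
    (f := fun q => 1 + z ^ q)]
  · refine prod_le_prod_of_subset_of_one_le (fun q hq => ?_) (fun _ _ => by positivity)
      (fun q _ _ => by have := pow_pos h0 q; linarith)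
    obtain ⟨x, hx, rfl⟩ := mem_image.1 hq
    simp only [mem_sigma, List.mem_toFinset, mem_filter] at hx
    exact hQ _ hx.2.2 ⟨_, _, hp _ hx.1, rfl⟩
  · rintro ⟨p, a⟩ hx ⟨p', b⟩ hy e
    simp only [coe_sigma, Set.mem_sigma_iff, mem_coe, List.mem_toFinset] at hx hy e
    have := (Nat.prime_dvd_prime_iff_eq (hp _ hx.1) (hp _ hy.1)).1
      ((hp _ hx.1).dvd_of_dvd_pow (e ▸ dvd_pow_self p (by omega)))
    subst this
    have := Nat.pow_right_injective (hp _ hx.1).two_le e
    simp only [add_left_inj] at this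
    rw [this]

noncomputable def h (u : ℝ) : ℝ := u - 3 / 10 * u ^ 2

theorem h_b {u : ℝ} (h0 : 0 ≤ u) (h1 : u ≤ 1) : 0 ≤ h u ∧ h u ≤ 7 / 10 ∧ 1 + u ≤ Real.exp (h u) := by
  have a : 0 ≤ h u := by unfold h; nlinarith
  refine ⟨a, by unfold h; nlinarith, le_trans ?_ (Real.sum_le_exp_of_nonneg a 4)⟩
  simp only [sum_range_succ, range_zero, sum_empty, Nat.factorial, h]
  norm_num
  have b : 7 / 10 ≤ 1 - 3 / 10 * u := by linarith
  have e : u - 3 / 10 * u ^ 2 = u * (1 - 3 / 10 * u) := by ring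
  rw [e]
  have k : 3 / 10 ≤ (1 - 3 / 10 * u) ^ 2 / 2 + u * (1 - 3 / 10 * u) ^ 3 / 6 := by
    nlinarith [mul_nonneg h0 (sub_nonneg.2 h1), mul_nonneg (mul_nonneg h0 h0) (sub_nonneg.2 h1),
      mul_nonneg (mul_nonneg h0 h0) (mul_nonneg h0 (sub_nonneg.2 h1)), sq_nonneg (1 - u)]
  nlinarith [mul_le_mul_of_nonneg_left k (sq_nonneg u)]

theorem h_mono {u v : ℝ} (h0 : u ≤ v) (h1 : v ≤ 1) : h u ≤ h v := by unfold h; nlinarith

theorem tele (t : ℝ) (ht : 0 < t) (J : ℕ) :
    ∑ j ∈ range J, h (Real.exp (-(t * (j + 1)))) ≤ 17 / 20 / t := by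
  have K : ∀ J : ℕ, t * ∑ j ∈ range J, h (Real.exp (-(t * (j + 1)))) ≤
      17 / 20 - (Real.exp (-(t * J)) - 3 / 20 * Real.exp (-(t * J)) ^ 2) := by
    intro J
    induction J with
    | zero => simp; norm_num
    | succ J ih =>
      rw [sum_range_succ, mul_add]
      push_cast
      have e : Real.exp (-(t * J)) = Real.exp (-(t * (J + 1))) * Real.exp t := by
        rw [← Real.exp_add]; congr 1; ring
      have b : Real.exp (-(t * J)) ≤ 1 := Real.exp_le_one_iff.2 (by
        have : 0 ≤ t * J := by positivity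
        linarith)
      rw [e] at ih b
      have u0 := Real.exp_pos (-(t * (J + 1)))
      have q := Real.quadratic_le_exp_of_nonneg ht.le
      generalize Real.exp (-(t * (J + 1))) = u at *
      generalize Real.exp t = E at *
      have k : t * (1 - 3 / 10 * u) ≤ (E - 1) * (1 - 3 / 20 * u * (E + 1)) := by
        have E1 : 0 < E := by nlinarith
        have k1 : t ≤ E - 1 := by nlinarith
        have k2 : t * (E - 3 / 10) ≤ (E - 1) * (17 / 20 * E - 3 / 20) := by
          nlinarith [mul_nonneg ht.le (show 0 ≤ E - 1 - t - t ^ 2 / 2 by linarith),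
            sq_nonneg (E - 1 - t)]
        have k3 := mul_le_mul_of_nonneg_left k1 (sub_nonneg.2 b)
        have k4 := mul_le_mul_of_nonneg_left k2 u0.le
        nlinarith
      have := mul_le_mul_of_nonneg_left k u0.le
      unfold h at ih ⊢
      nlinarith
  rw [le_div_iff₀' ht]
  refine (K J).trans ?_
  have u0 := Real.exp_pos (-(t * J))
  have b : Real.exp (-(t * J)) ≤ 1 := Real.exp_le_one_iff.2 (by
    have : 0 ≤ t * J := by positivity
    linarith)
  nlinarith

theorem idx (s κ : ℝ) (hs : 0 < s) (hκ : 0 < κ) (E : ℕ) (A : Finset ℕ) (ι : ℕ → ℕ)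
    (hi : Set.InjOn ι A) (h1 : ∀ q ∈ A, 1 ≤ ι q ∧ κ * (ι q - E) ≤ q) :
    ∑ q ∈ A, h (Real.exp (-s) ^ q) ≤ 7 / 10 * E + 17 / 20 / (κ * s) := by
  have le1 : ∀ x : ℝ, 0 ≤ x → Real.exp (-x) ≤ 1 := fun x hx => Real.exp_le_one_iff.2 (by linarith)
  let H : ℕ → ℝ := fun i => if i < E then 7 / 10 else h (Real.exp (-(κ * s * ((i - E : ℕ) + 1))))
  have H0 : ∀ i, 0 ≤ H i := fun i => by
    simp only [H]; split_ifs
    · norm_num
    · exact (h_b (Real.exp_pos _).le (le1 _ (by positivity))).1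
  obtain ⟨J, hJ⟩ := (A.image ι).bddAbove
  calc _ ≤ ∑ q ∈ A, H (ι q - 1) := by
        refine sum_le_sum fun q hq => ?_
        obtain ⟨a, b⟩ := h1 q hq
        rw [← Real.exp_nat_mul]
        simp only [H]; split_ifs with c
        · refine (h_b (Real.exp_pos _).le (Real.exp_le_one_iff.2 ?_)).2.1
          have : 0 ≤ q * s := by positivity
          linarith
        · refine h_mono (Real.exp_le_exp.2 ?_) (le1 _ (by positivity))
          have : ((ι q - 1 - E : ℕ) : ℝ) + 1 = ι q - E := by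
            rw [Nat.sub_right_comm, Nat.cast_sub (by omega), Nat.cast_sub (by omega)]; simp
          rw [this]; nlinarith
    _ = ∑ i ∈ A.image (fun q => ι q - 1), H i := by
        rw [sum_image]
        intro a ha b hb e
        have := (h1 a ha).1
        have := (h1 b hb).1
        exact hi ha hb (by simp only at e; omega)
    _ ≤ ∑ i ∈ range (E + J), H i := by
        refine sum_le_sum_of_subset_of_nonneg (fun i hi => ?_) fun i _ _ => H0 i
        obtain ⟨q, hq, rfl⟩ := mem_image.1 hi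
        have := hJ (mem_coe.2 (mem_image_of_mem ι hq))
        have := (h1 q hq).1
        rw [mem_range]; omega
    _ ≤ _ := by
        rw [sum_range_add]
        refine add_le_add (le_of_eq ?_) (le_trans (le_of_eq ?_) (tele _ (by positivity) J))
        · rw [sum_congr rfl (g := fun _ => 7 / 10) fun i hi => if_pos (mem_range.1 hi)]
          simp [mul_comm]
        · exact sum_congr rfl fun i _ => by simp [H]

theorem wheel (q : ℕ) (hq : Nat.Coprime 210 q) : 35 * Nat.count (Nat.Coprime 210) q ≤ 8 * q + 35 := by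
  induction q using Nat.strong_induction_on with
  | _ q ih =>
    by_cases c : q < 210
    · have : ∀ q < 210, Nat.Coprime 210 q → 35 * Nat.count (Nat.Coprime 210) q ≤ 8 * q + 35 := by
        decide +kernel
      exact this q c hq
    obtain ⟨r, rfl⟩ : ∃ r, q = 210 + r := ⟨q - 210, by omega⟩
    have := ih r (by omega) (by simpa using hq)
    rw [Nat.count_add]
    have e : Nat.count (Nat.Coprime 210) 210 = 48 := by decide +kernel
    have e' : (fun k => Nat.Coprime 210 (210 + k)) = Nat.Coprime 210 := by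
      ext k; exact Nat.coprime_self_add_right
    simp only [e']
    omega

theorem pw (p E k : ℕ) (hp : 2 ≤ p) (hk : k = p ^ (E + 1)) (a : ℕ) :
    (k : ℝ) * (a - E) ≤ (p ^ a : ℕ) := by
  rcases le_or_gt a E with c | c
  · have : (a : ℝ) ≤ E := by exact_mod_cast c
    have : (0 : ℝ) ≤ k := by positivity
    have : (0 : ℝ) ≤ (p ^ a : ℕ) := by positivity
    nlinarith
  obtain ⟨j, rfl⟩ : ∃ j, a = E + 1 + j := ⟨a - E - 1, by omega⟩
  have := Nat.lt_pow_self (n := j) (show 1 < p by omega)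
  have : k * (j + 1) ≤ p ^ (E + 1 + j) := by rw [pow_add, hk]; gcongr; omega
  have : (k : ℝ) * (j + 1) ≤ (p ^ (E + 1 + j) : ℕ) := by exact_mod_cast this
  convert this using 2; push_cast; ring

theorem analytic (s : ℝ) (hs : 0 < s) (Q : Finset ℕ) (hQ : ∀ q ∈ Q, PP q) :
    ∏ q ∈ Q, (1 + Real.exp (-s) ^ q) ≤ Real.exp (119 / 10 + 41 / 200 / s) := by
  have z1 : ∀ q, Real.exp (-s) ^ q ≤ 1 := fun q =>
    pow_le_one₀ (Real.exp_pos _).le (Real.exp_le_one_iff.2 (by linarith))
  have hb := fun q => h_b (pow_pos (Real.exp_pos (-s)) q).le (z1 q)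
  refine (prod_le_prod (fun _ _ => by positivity) fun q _ => (hb q).2.2).trans ?_
  rw [← Real.exp_sum, Real.exp_le_exp]
  have S : ∀ p E k : ℕ, p.Prime → k = p ^ (E + 1) →
      ∑ q ∈ Q with p ∣ q, h (Real.exp (-s) ^ q) ≤ 7 / 10 * E + 17 / 20 / (k * s) := by
    intro p E k hp hk
    have T : ∀ q ∈ Q.filter (p ∣ ·), ∃ a, q = p ^ (a + 1) := fun q hq => by
      obtain ⟨h1, h2⟩ := mem_filter.1 hq
      obtain ⟨r, a, hr, rfl⟩ := hQ q h1
      exact ⟨a, by rw [(Nat.prime_dvd_prime_iff_eq hp hr).1 (hp.dvd_of_dvd_pow h2)]⟩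
    refine idx s k hs (by have := hp.pos; rw [hk]; positivity) E _ (Nat.log p)
      (fun a ha b hb e => ?_) (fun q hq => ?_)
    · obtain ⟨x, rfl⟩ := T a ha
      obtain ⟨y, rfl⟩ := T b hb
      rw [Nat.log_pow hp.one_lt, Nat.log_pow hp.one_lt] at e
      rw [e]
    · obtain ⟨x, rfl⟩ := T q hq
      rw [Nat.log_pow hp.one_lt]
      exact ⟨by omega, pw p E k hp.two_le hk _⟩
  have S2 := S 2 7 256 (by norm_num) (by norm_num)
  have S3 := S 3 4 243 (by norm_num) (by norm_num)
  have S5 := S 5 3 625 (by norm_num) (by norm_num)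
  have S7 := S 7 2 343 (by norm_num) (by norm_num)
  have S1 := idx s (35 / 8) hs (by norm_num) 1 (Q.filter (Nat.Coprime 210))
    (Nat.count (Nat.Coprime 210))
    (fun a ha b hb e => Nat.count_injective (mem_filter.1 ha).2 (mem_filter.1 hb).2 e)
    (fun q hq => by
      obtain ⟨h1, h2⟩ := mem_filter.1 hq
      obtain ⟨r, a, hr, e⟩ := hQ q h1
      have : 1 < q := e ▸ Nat.one_lt_pow (by omega) hr.one_lt
      refine ⟨Nat.lt_of_le_of_lt (Nat.zero_le _) (Nat.count_strict_mono (by simp) this), ?_⟩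
      have : (35 * Nat.count (Nat.Coprime 210) q : ℝ) ≤ 8 * q + 35 := by exact_mod_cast wheel q h2
      push_cast; linarith)
  simp only [sum_filter] at S1 S2 S3 S5 S7
  have := add_le_add (add_le_add (add_le_add (add_le_add S1 S2) S3) S5) S7
  simp only [← sum_add_distrib] at this
  refine le_trans (sum_le_sum fun q _ => ?_) (this.trans ?_)
  · have a := (hb q).1
    by_cases c : Nat.Coprime 210 q
    · rw [if_pos c]; split_ifs <;> linarith
    · have : 2 ∣ q ∨ 3 ∣ q ∨ 5 ∣ q ∨ 7 ∣ q := by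
        by_contra d
        push Not at d
        apply c
        rw [show 210 = 2 * 3 * 5 * 7 by norm_num]
        simp only [Nat.coprime_mul_iff_left]
        exact ⟨⟨⟨(Nat.Prime.coprime_iff_not_dvd (by norm_num)).2 d.1,
          (Nat.Prime.coprime_iff_not_dvd (by norm_num)).2 d.2.1⟩,
          (Nat.Prime.coprime_iff_not_dvd (by norm_num)).2 d.2.2.1⟩,
          (Nat.Prime.coprime_iff_not_dvd (by norm_num)).2 d.2.2.2⟩
      split_ifs <;> first | linarith | tauto
  · simp only [← div_div]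
    have : 0 < s⁻¹ := by positivity
    simp only [div_eq_mul_inv _ s]
    push_cast
    linarith

def isP (q : ℕ) : Bool := 2 ≤ q && (List.range 55).all fun d => d < 2 || d = q || q % d ≠ 0

theorem isP_iff (q : ℕ) (hq : q ≤ 3000) : isP q = true ↔ q.Prime := by
  simp only [isP, Bool.and_eq_true, decide_eq_true_eq, List.all_eq_true, List.mem_range,
    Bool.or_eq_true]
  constructor
  · rintro ⟨h1, h2⟩
    by_contra c
    have a := Nat.minFac_sq_le_self (by omega) c
    have b := Nat.minFac_prime (n := q) (by omega)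
    rcases h2 q.minFac (by nlinarith) with (d | d) | d
    · have := b.two_le; omega
    · exact c (d ▸ b)
    · exact d (Nat.mod_eq_zero_of_dvd (Nat.minFac_dvd q))
  · refine fun h => ⟨h.two_le, fun d _ => ?_⟩
    by_contra c
    push Not at c
    rcases (Nat.dvd_prime h).1 (Nat.dvd_of_mod_eq_zero c.2) with e | e <;> omega

def add (T p : ℕ) : ℕ → ℕ
  | 0 => T
  | a + 1 => if p ^ (a + 1) ≤ 3000 then add T p a + T <<< (192 * p ^ (a + 1)) else add T p a

def kr : List ℕ → ℕ
  | [] => (2 ^ (192 * 3001) - 1) / (2 ^ 192 - 1)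
  | p :: L => add (kr L) p 11 &&& (2 ^ (192 * 3001) - 1)

theorem add_eq (T p a : ℕ) : add T p a =
    T + ∑ b ∈ range a, if p ^ (b + 1) ≤ 3000 then T * (2 ^ 192) ^ p ^ (b + 1) else 0 := by
  induction a with
  | zero => simp [add]
  | succ a ih =>
    rw [add, sum_range_succ, ih, Nat.shiftLeft_eq, pow_mul]
    split_ifs <;> ring

theorem shift (X N q : ℕ) (c : ℕ → ℕ) (hq : q ≤ N) : (∑ n ∈ range N, c n * X ^ n) * X ^ q ≡
    ∑ n ∈ range N, (if q ≤ n then c (n - q) else 0) * X ^ n [MOD X ^ N] := by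
  obtain ⟨m, rfl⟩ := Nat.exists_eq_add_of_le hq
  rw [sum_range_add (n := q), sum_range_add (n := q), sum_eq_zero (s := range q)
    (f := fun n => (if q ≤ n then c (n - q) else 0) * X ^ n)
    (fun n hn => by rw [if_neg (by have := mem_range.1 hn; omega), zero_mul]),
    ← sum_range_add (fun n => c n * X ^ n), add_comm q m, sum_range_add, add_mul, zero_add]
  have : (∑ n ∈ range m, c n * X ^ n) * X ^ q =
      ∑ n ∈ range m, (if q ≤ q + n then c (q + n - q) else 0) * X ^ (q + n) := by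
    rw [sum_mul]; exact sum_congr rfl fun n _ => by simp; ring
  rw [this]
  refine Nat.ModEq.symm ((Nat.modEq_iff_dvd' (by omega)).2 ?_)
  rw [Nat.add_sub_cancel_left, sum_mul]
  exact dvd_sum fun n _ => ⟨c (m + n) * X ^ n, by ring⟩

theorem kr_eq (X N : ℕ) (hX : X = 2 ^ 192) (hN : N = 3001) (L : List ℕ) :
    kr L ≡ ∑ n ∈ range N, cnt 11 L n * X ^ n [MOD X ^ N] := by
  have e : 2 ^ (192 * 3001) = X ^ N := by rw [pow_mul, hX, hN]
  induction L with
  | nil =>
    rw [kr, e, ← hX, ← Nat.geomSum_eq (by rw [hX]; norm_num)]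
    simp only [cnt, one_mul]; rfl
  | cons p L ih =>
    rw [kr, Nat.and_two_pow_sub_one_eq_mod, e, add_eq, ← hX]
    refine (Nat.mod_modEq _ _).trans ?_
    simp only [cnt, add_mul, sum_add_distrib, sum_mul]
    refine ih.add ?_
    rw [sum_comm]
    refine Nat.ModEq.sum fun a _ => ?_
    split_ifs with c
    · exact (ih.mul_right _).trans (shift X N _ _ (by omega))
    · rw [sum_eq_zero]
      intro n hn
      rw [if_neg (by have := mem_range.1 hn; omega), zero_mul]

def chk : ℕ → ℕ → ℕ → Bool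
  | 0, _, _ => true
  | k + 1, n, T => (T &&& (2 ^ 192 - 1)) * 10000 ^ (Nat.sqrt (256 * n)) ≤
      10644 ^ (Nat.sqrt (256 * n)) && chk k (n + 1) (T >>> 192)

theorem chk_ok (X : ℕ) (hX : X = 2 ^ 192) (c : ℕ → ℕ) : ∀ k n T, chk k n T = true →
    (∀ i < k, c (n + i) < X) → T ≡ ∑ i ∈ range k, c (n + i) * X ^ i [MOD X ^ k] →
    ∀ i < k, c (n + i) * 10000 ^ (Nat.sqrt (256 * (n + i))) ≤ 10644 ^ (Nat.sqrt (256 * (n + i))) := by
  have X0 : 0 < X := by rw [hX]; positivity
  intro k
  induction k with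
  | zero => intro _ _ _ _ _ i hi; omega
  | succ k ih =>
    intro n T h1 h2 h3 i hi
    rw [chk, Bool.and_eq_true, decide_eq_true_eq, Nat.and_two_pow_sub_one_eq_mod,
      Nat.shiftRight_eq_div_pow, ← hX] at h1
    have e : ∑ i ∈ range (k + 1), c (n + i) * X ^ i =
        c n + X * ∑ i ∈ range k, c (n + 1 + i) * X ^ i := by
      rw [sum_range_succ', mul_sum, add_comm]
      congr 1
      · simp
      · exact sum_congr rfl fun i _ => by rw [show n + (i + 1) = n + 1 + i by ring]; ring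
    rw [e] at h3
    have c0 : c n < X := h2 0 (by omega)
    have a : T % X = c n := by
      have := (h3.of_dvd (dvd_pow_self X (by omega)))
      rw [Nat.ModEq, Nat.add_mul_mod_self_left, Nat.mod_eq_of_lt c0] at this
      exact this
    rcases i with _ | i
    · rw [a] at h1; exact h1.1
    · rw [show n + (i + 1) = n + 1 + i by ring]
      refine ih (n + 1) (T / X) h1.2 (fun i hi => ?_) ?_ i (by omega)
      · rw [show n + 1 + i = n + (i + 1) by ring]; exact h2 _ (by omega)
      · rw [← Nat.mod_add_div T X, a, pow_succ'] at h3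
        exact Nat.ModEq.mul_left_cancel' X0.ne' (Nat.ModEq.add_left_cancel' _ h3)

set_option maxRecDepth 100000 in
theorem chk_run : chk 3001 0 (kr ((List.range 3001).filter isP)) = true := by decide +kernel

theorem small (n : ℕ) (hn : n ≤ 3000) :
    (cnt 11 ((List.range 3001).filter isP) n : ℝ) ≤ Real.exp (√n) := by
  generalize hL : (List.range 3001).filter isP = L
  have nd : L.Nodup := hL ▸ List.nodup_range.filter _
  have hp : ∀ p ∈ L, p.Prime := fun p hp => by
    rw [← hL, List.mem_filter, List.mem_range] at hp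
    exact (isP_iff p (by omega)).1 hp.2
  have B : ∀ i < 3001, cnt 11 L (0 + i) < 2 ^ 192 := by
    intro i hi
    have a := rank 11 3000 (59 / 60) (by norm_num) (by norm_num) L nd hp i (by omega) (range 3001)
      (fun q hq _ => mem_range.2 (by omega))
    have b : ∏ q ∈ range 3001, (1 + (59 / 60 : ℝ) ^ q) ≤ Real.exp 60 := by
      refine (prod_le_prod (fun _ _ => by positivity) fun q _ =>
        (add_comm _ _).trans_le (Real.add_one_le_exp _)).trans ?_
      rw [← Real.exp_sum, Real.exp_le_exp]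
      refine (Summable.sum_le_tsum _ (fun _ _ => by positivity)
        (summable_geometric_of_lt_one (by norm_num) (by norm_num))).trans ?_
      rw [tsum_geometric_of_lt_one (by norm_num) (by norm_num)]; norm_num
    have c : Real.exp (-(1 / 59)) ≤ 59 / 60 := by
      rw [Real.exp_neg, inv_le_comm₀ (Real.exp_pos _) (by norm_num)]
      exact le_trans (by norm_num) (Real.add_one_le_exp _)
    have d : Real.exp (-60) ≤ (59 / 60 : ℝ) ^ i := by
      refine le_trans ?_ (pow_le_pow_left₀ (Real.exp_pos _).le c i)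
      rw [← Real.exp_nat_mul, Real.exp_le_exp]
      have : (i : ℝ) ≤ 3001 := by exact_mod_cast hi.le
      linarith
    have e : (cnt 11 L i : ℝ) ≤ Real.exp 1 ^ 120 := by
      rw [← Real.exp_nat_mul, show ((120 : ℕ) : ℝ) * 1 = 60 - -60 by norm_num, Real.exp_sub,
        le_div_iff₀ (Real.exp_pos _)]
      exact le_trans (mul_le_mul_of_nonneg_left d (Nat.cast_nonneg _)) (a.trans b)
    have f : Real.exp 1 ^ 120 ≤ 3 ^ 120 := by
      gcongr; linarith [Real.exp_one_lt_d9]
    have : (cnt 11 L i : ℝ) < 2 ^ 192 := (e.trans f).trans_lt (by norm_num)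
    rw [zero_add]; exact_mod_cast this
  obtain ⟨X, hX⟩ : ∃ X, X = 2 ^ 192 := ⟨_, rfl⟩
  obtain ⟨N, hN⟩ : ∃ N, N = 3001 := ⟨_, rfl⟩
  have k := kr_eq X N hX hN L
  have r := chk_run
  rw [hL, ← hN] at r
  rw [← hX, ← hN] at B
  have := chk_ok X hX (cnt 11 L) N 0 _ r B (by simpa only [zero_add] using k) n (by omega)
  rw [zero_add] at this
  clear r k B hX hN hp nd hL
  have a : (cnt 11 L n : ℝ) ≤ (10644 / 10000) ^ Nat.sqrt (256 * n) := by
    rw [div_pow, le_div_iff₀ (by positivity)]; exact_mod_cast this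
  have b : (10644 / 10000 : ℝ) ≤ Real.exp (1 / 16) :=
    le_trans (by norm_num) (Real.quadratic_le_exp_of_nonneg (by norm_num))
  refine a.trans ((pow_le_pow_left₀ (by norm_num) b _).trans ?_)
  rw [← Real.exp_nat_mul, Real.exp_le_exp]
  refine Real.le_sqrt_of_sq_le ?_
  have : ((Nat.sqrt (256 * n) : ℝ)) ^ 2 ≤ 256 * n := by exact_mod_cast Nat.sqrt_le' (256 * n)
  nlinarith

def isQ (q : ℕ) : Bool := 2 ≤ q && (List.range 127).all fun d => d < 2 || q % d ≠ 0 || d ^ 14 % q = 0

theorem isQ_of (q : ℕ) (hq : q ≤ 16000) (h : PP q) : isQ q = true := by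
  obtain ⟨p, a, hp, rfl⟩ := h
  simp only [isQ, Bool.and_eq_true, decide_eq_true_eq, List.all_eq_true, List.mem_range,
    Bool.or_eq_true]
  refine ⟨Nat.one_lt_pow (by omega) hp.one_lt, fun d _ => ?_⟩
  by_cases c : d < 2
  · exact Or.inl (Or.inl c)
  by_cases c' : p ^ (a + 1) % d ≠ 0
  · exact Or.inl (Or.inr c')
  right
  obtain ⟨j, -, rfl⟩ := (Nat.dvd_prime_pow hp).1 (Nat.dvd_of_mod_eq_zero (not_not.1 c'))
  have j0 : j ≠ 0 := by rintro rfl; simp at c
  rw [← pow_mul]
  refine Nat.mod_eq_zero_of_dvd (pow_dvd_pow _ ?_)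
  by_contra x
  have : 2 ^ 14 ≤ p ^ (a + 1) :=
    (Nat.pow_le_pow_right (by norm_num) (by omega)).trans (Nat.pow_le_pow_left hp.two_le _)
  omega

def loop (K : ℕ) : ℕ → ℕ → ℕ → ℕ → ℕ
  | 0, _, _, P => P
  | k + 1, q, z, P => if isQ q then
      (if P = 0 then 0 else loop K k (q + 1) (z * (K - 1) / K + 1) (P * (2 ^ 64 + z) / 2 ^ 64 + 1))
    else if z = 0 then 0 else loop K k (q + 1) (z * (K - 1) / K + 1) P

theorem loop_ok (K : ℕ) (hK : 2 ≤ K) : ∀ k q z P : ℕ, 0 < P →
    2 ^ 64 * (((K : ℝ) - 1) / K) ^ q ≤ z →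
    P * ∏ i ∈ Ico q (q + k) with isQ i = true, (1 + (((K : ℝ) - 1) / K) ^ i) ≤ loop K k q z P := by
  have K2 : (2 : ℝ) ≤ K := by exact_mod_cast hK
  have w0 : 0 < ((K : ℝ) - 1) / K := div_pos (by linarith) (by linarith)
  have dv : ∀ a b : ℕ, 0 < b → (a : ℝ) / b ≤ (a / b + 1 : ℕ) := fun a b hb => by
    rw [div_le_iff₀ (by exact_mod_cast hb)]
    have := Nat.lt_div_mul_add (a := a) hb
    exact_mod_cast (by nlinarith : a ≤ (a / b + 1) * b)
  intro k
  induction k with
  | zero => intro q z P _ _; simp [loop]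
  | succ k ih =>
    intro q z P hP hz
    have z0 : z ≠ 0 := by
      rintro rfl
      have := pow_pos w0 q
      push_cast at hz; linarith
    have hz' : 2 ^ 64 * (((K : ℝ) - 1) / K) ^ (q + 1) ≤ (z * (K - 1) / K + 1 : ℕ) := by
      refine le_trans ?_ (dv _ _ (by omega))
      rw [pow_succ _ q, ← mul_assoc, Nat.cast_mul, Nat.cast_sub (by omega), mul_div_assoc]
      push_cast; gcongr
    rw [loop, if_neg hP.ne', if_neg z0, ← insert_Ico_add_one_left_eq_Ico (by omega), filter_insert,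
      show q + (k + 1) = q + 1 + k by ring]
    split_ifs with c
    · rw [prod_insert (by simp), ← mul_assoc]
      refine le_trans ?_ (ih _ _ _ (by omega) hz')
      gcongr
      refine le_trans ?_ (dv _ _ (by positivity))
      rw [le_div_iff₀ (by positivity)]
      push_cast
      rw [mul_assoc]; gcongr; linarith
    · exact ih _ _ _ hP hz'

set_option maxRecDepth 1000000 in
theorem run1 : loop 140 7001 0 (2 ^ 64) (2 ^ 64) * 10000 ^ 33 ≤ 2 ^ 64 * 27182 ^ 33 := by
  decide +kernel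

set_option maxRecDepth 1000000 in
theorem run2 : loop 200 16001 0 (2 ^ 64) (2 ^ 64) * 10000 ^ 43 ≤ 2 ^ 64 * 27182 ^ 43 := by
  decide +kernel

theorem mid (K N M c A n : ℕ) (hK : 2 ≤ K) (hN : N ≤ 16000) (hn : n ≤ N) (hM : M = N + 1)
    (h : loop K M 0 (2 ^ 64) (2 ^ 64) * 10000 ^ c ≤ 2 ^ 64 * 27182 ^ c) (L : List ℕ)
    (hL : L.Nodup) (hp : ∀ p ∈ L, p.Prime) :
    (cnt A L n : ℝ) ≤ Real.exp (n / (K - 1) + c) := by
  subst hM
  have K2 : (2 : ℝ) ≤ K := by exact_mod_cast hK
  have w0 : 0 < ((K : ℝ) - 1) / K := div_pos (by linarith) (by linarith)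
  have a := rank A N _ w0 ((div_le_one (by linarith)).2 (by linarith)) L hL hp n hn
    ((Ico 0 (0 + (N + 1))).filter (isQ · = true))
    (fun q hq x => mem_filter.2 ⟨mem_Ico.2 (by omega), isQ_of q (by omega) x⟩)
  have b := loop_ok K hK (N + 1) 0 (2 ^ 64) (2 ^ 64) (by positivity) (by norm_num)
  have h' : (loop K (N + 1) 0 (2 ^ 64) (2 ^ 64) : ℝ) ≤ 2 ^ 64 * (27182 / 10000) ^ c := by
    rw [div_pow, ← mul_div_assoc, le_div_iff₀ (by positivity)]; exact_mod_cast h
  rw [Nat.cast_pow, Nat.cast_ofNat] at b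
  have d := le_of_mul_le_mul_left (b.trans h') (by positivity)
  have e : (27182 / 10000 : ℝ) ^ c ≤ Real.exp c := by
    rw [← mul_one (c : ℝ), Real.exp_nat_mul]
    gcongr; linarith [Real.exp_one_gt_d9]
  have f : Real.exp (-(1 / (K - 1))) ≤ ((K : ℝ) - 1) / K := by
    rw [Real.exp_neg, inv_le_comm₀ (Real.exp_pos _) w0]
    refine le_trans (le_of_eq ?_) (Real.add_one_le_exp _)
    have : (K : ℝ) - 1 ≠ 0 := by linarith
    field_simp; ring
  have g := pow_le_pow_left₀ (Real.exp_pos _).le f n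
  rw [← Real.exp_nat_mul] at g
  rw [show (n : ℝ) / (K - 1) + c = c - n * -(1 / (K - 1)) by ring, Real.exp_sub,
    le_div_iff₀ (Real.exp_pos _)]
  exact le_trans (by gcongr) (a.trans (d.trans e))

theorem result (n : ℕ) :
    ((Set.range fun g : Equiv.Perm (Fin n) => orderOf g).ncard : ℝ) ≤ Real.exp (√n) := by
  have K : ∀ A (L : List ℕ), n < 2 ^ (A + 1) → (∀ p, p ∈ L → p.Prime) →
      (∀ p ≤ n, p.Prime → p ∈ L) →
      ((Set.range fun g : Equiv.Perm (Fin n) => orderOf g).ncard : ℝ) ≤ cnt A L n := by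
    intro A L hA h1 h2
    have o0 : ∀ g : Equiv.Perm (Fin n), orderOf g ≠ 0 := fun g => (orderOf_pos g).ne'
    rw [Set.ncard_eq_toFinset_card', Nat.cast_le, ← card_image_of_injOn (f := Nat.factorization)]
    · refine card_le A L n _ (fun p hp => (h1 p hp).two_le) hA fun f hf => ?_
      simp only [mem_image, Set.mem_toFinset, Set.mem_range, exists_exists_eq_and] at hf
      obtain ⟨g, rfl⟩ := hf
      have a := (ell_lcm g.cycleType fun x hx => by
        have := Equiv.Perm.two_le_of_mem_cycleType hx; omega).2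
      have b := g.sum_cycleType_le
      rw [Equiv.Perm.lcm_cycleType] at a
      rw [Fintype.card_fin] at b
      refine ⟨fun p hp => h2 p ?_ (Nat.prime_of_mem_primeFactors hp), a.trans b⟩
      have c := single_le_sum (f := fun p => p ^ (orderOf g).factorization p)
        (fun _ _ => Nat.zero_le _) hp
      exact (Nat.le_self_pow (Finsupp.mem_support_iff.1 hp) p).trans (c.trans (a.trans b))
    · intro a ha b hb e
      simp only [Set.coe_toFinset, Set.mem_range] at ha hb
      obtain ⟨g, rfl⟩ := ha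
      obtain ⟨g', rfl⟩ := hb
      exact Nat.factorization_inj (o0 g) (o0 g') e
  by_cases c1 : n ≤ 3000
  · refine (K 11 _ (by omega) (fun p hp => ?_) fun p a b => ?_).trans (small n c1)
    · rw [List.mem_filter, List.mem_range] at hp
      exact (isP_iff p (by omega)).1 hp.2
    · rw [List.mem_filter, List.mem_range]
      exact ⟨by omega, (isP_iff p (by omega)).2 b⟩
  obtain ⟨L, nd, hL⟩ : ∃ L : List ℕ, L.Nodup ∧ ∀ p, p ∈ L ↔ p ≤ n ∧ p.Prime :=
    ⟨(List.range (n + 1)).filter (·.Prime), List.nodup_range.filter _, fun p => by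
      simp [Nat.lt_succ_iff]⟩
  have hp : ∀ p ∈ L, p.Prime := fun p h => ((hL p).1 h).2
  refine (K n L (Nat.lt_two_pow_self.trans (Nat.pow_lt_pow_right (by norm_num) (by omega))) hp
    fun p a b => (hL p).2 ⟨a, b⟩).trans ?_
  have n1 : (3000 : ℝ) ≤ n := by exact_mod_cast (by omega : 3000 ≤ n)
  by_cases c2 : n ≤ 7000
  · refine (mid 140 7000 7001 33 n n (by norm_num) (by norm_num) c2 rfl run1 L nd hp).trans
      (Real.exp_le_exp.2 (Real.le_sqrt_of_sq_le ?_))
    have : (n : ℝ) ≤ 7000 := by exact_mod_cast c2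
    push_cast; nlinarith
  have n2 : (7000 : ℝ) ≤ n := by exact_mod_cast (by omega : 7000 ≤ n)
  by_cases c3 : n ≤ 16000
  · refine (mid 200 16000 16001 43 n n (by norm_num) (by norm_num) c3 rfl run2 L nd hp).trans
      (Real.exp_le_exp.2 (Real.le_sqrt_of_sq_le ?_))
    have : (n : ℝ) ≤ 16000 := by exact_mod_cast c3
    push_cast; nlinarith
  have n3 : (16000 : ℝ) ≤ n := by exact_mod_cast (by omega : 16000 ≤ n)
  have r : 1264 / 10 ≤ √(n : ℝ) := Real.le_sqrt_of_sq_le (by linarith)
  have r2 := Real.mul_self_sqrt (show (0 : ℝ) ≤ n by positivity)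
  classical
  have s0 : 0 < 9 / 20 / √(n : ℝ) := by positivity
  have a := rank n n (Real.exp (-(9 / 20 / √n))) (Real.exp_pos _)
    (Real.exp_le_one_iff.2 (by linarith)) L nd hp n le_rfl ((range (n + 1)).filter PP)
    (fun q a b => mem_filter.2 ⟨mem_range.2 (by omega), b⟩)
  have b := a.trans (analytic _ s0 _ fun q hq => (mem_filter.1 hq).2)
  rw [← Real.exp_nat_mul, ← le_div_iff₀ (Real.exp_pos _), ← Real.exp_sub] at b
  refine b.trans (Real.exp_le_exp.2 ?_)
  generalize √(n : ℝ) = x at *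
  rw [← r2]
  have : x * x * -(9 / 20 / x) = -(9 / 20 * x) := by field_simp
  rw [this, div_div_eq_mul_div]
  linarith

end Pool.Agent.Results.MP_bcad5b_nt.ExpSqrt
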